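import Pool.Agent.Helper93.EXPO.Main
import Pool.Agent.Helper69.FST.Lev
import Pool.Agent.Helper76.FDG.Row
import Pool.Agent.Helper29.NJ.Prw

/-! ROW [EXPO] is a theorem. -/

set_option autoImplicit false

namespace Pool.Agent.Helper93.EXPO

/-- **ROW [EXPO]** -/
theorem row_expo (N : ℕ) : Pool.Agent.Helper15.FST.ROW_EXPO N :=
  expo Pool.Agent.Helper69.FST.row_lev (Pool.Agent.Helper76.FDG.row_fdg N) Pool.Agent.Helper29.NJ.row_ptw

end Pool.Agent.Helper93.EXPO
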