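import Pool.Agent.Helper93.EXPO.Num

/-! [EXPO], part 2: numbers of robust classes at all real levels, events of members, saturation. -/

set_option autoImplicit false

namespace Pool.Agent.Helper93.EXPO

open Finset Filter Topology Matrix Pool.Agent.Helper69.RK Pool.Agent.Helper31.EC Pool.Agent.Helper31.EC.Sp
open Pool.Agent.Helper40.EL Pool.Agent.Helper89.LX Pool.Agent.Helper84.MT
open Pool.Agent.Helper49.MD Pool.Agent.Helper36.AM
open Pool.Agent.Helper3.LF (Mon)
open Pool.Agent.Helper29.MX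
open Pool.Agent.Helper15.FST
open Pool.Agent.Helper3.FST (idM kuM)
open Pool.Agent.Helper13.FST (HL_le HL_bdd kap_tlb tlb_of_giv)

noncomputable section

variable {S T : Sp} {N : ℕ} {E : ℕ → ℕ} {ι : Type}

/-- two functions which are monotone and Lipschitz above `a` and agree at the rationals -/
theorem ext_rat {a B : ℝ} (hB : 0 ≤ B) {f f' : ℝ → ℝ}
    (hf : ∀ x y, a < x → x ≤ y → y ≤ 1 → f x ≤ f y ∧ f y ≤ f x + B * (y - x))
    (hf' : ∀ x y, a < x → x ≤ y → y ≤ 1 → f' x ≤ f' y ∧ f' y ≤ f' x + B * (y - x))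
    (hq : ∀ q : ℚ, a < q → (q : ℝ) ≤ 1 → f q = f' q) {e : ℝ} (h0 : a < e) (h1 : e ≤ 1) : f e = f' e := by
  have key : ∀ δ : ℝ, 0 < δ → |f e - f' e| ≤ δ := by
    intro δ hδ
    obtain ⟨q, hq1, hq2⟩ := exists_rat_btwn (show max a (e - δ / (2 * (B + 1))) < e from
      max_lt h0 (by
        have : 0 < δ / (2 * (B + 1)) := by positivity
        linarith))
    have ha : a < q := (le_max_left _ _).trans_lt hq1
    have hd : e - δ / (2 * (B + 1)) < q := (le_max_right _ _).trans_lt hq1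
    have g1 := hf q e ha hq2.le h1
    have g2 := hf' q e ha hq2.le h1
    have g3 := hq q ha (hq2.le.trans h1)
    have g4 : B * (e - q) ≤ δ / 2 := by
      have g5 : (B + 1) * (e - q) ≤ (B + 1) * (δ / (2 * (B + 1))) :=
        mul_le_mul_of_nonneg_left (by linarith) (by linarith)
      have g6 : (B + 1) * (δ / (2 * (B + 1))) = δ / 2 := by field_simp
      have g7 : 0 ≤ e - q := by linarith
      linarith
    rw [abs_le]
    constructor <;> linarith
  have h2 : |f e - f' e| ≤ 0 := le_of_forall_pos_le_add fun δ hδ => by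
    rw [zero_add]
    exact key δ hδ
  exact sub_eq_zero.mp (abs_eq_zero.mp (le_antisymm h2 (abs_nonneg _)))

section cls

variable {C : ℕ → MCl N} {m v g r : ℕ} {i j : Fin r} {P : (KM N (Fin r)).Pd}

/-- events of extensions of a member are members, up to the choice of the system of the object -/
theorem mem_im (hC : Cls P) (hE : ∀ S x, P S x → lft (Ety C m v g r i j) S x) {s : MSys S N (lin g) (Fin r)}
    (hs : Mem C m v g r i j P S s) (p : Pj T S) (A : ∀ k, (T.F k).Ω → Prop) (hA : 0 < ul (T.pr A)) :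
    ∃ t : MSys (Sp.im p A) N (lin g) (Fin r), (∀ᶠ k in UF, ob t k = ob (s.im p A hA) k) ∧
      Mem C m v g r i j P _ t := by
  have a1 : P (Sp.im p A) (ob (s.im p A hA)) := hC.im S (ob s) hs.2 T p A hA
  obtain ⟨t, ht, ht2⟩ := hE _ _ a1
  have a2 : P (Sp.im p A) (ob t) := hC.ev _ (ob (s.im p A hA)) (ob t) (ht.mono fun k hk => hk.symm) a1
  exact ⟨t, ht, ht2, a2⟩

/-- a member -/
theorem exists_mem (hC : Cls P) (hE : ∀ S x, P S x → lft (Ety C m v g r i j) S x) :
    ∃ (S : Sp) (s : MSys S N (lin g) (Fin r)), Mem C m v g r i j P S s := by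
  obtain ⟨S, x, hx⟩ := hC.ne
  obtain ⟨t, ht, ht2⟩ := hE _ _ hx
  exact ⟨S, t, ht2, hC.ev _ x (ob t) (ht.mono fun k hk => hk.symm) hx⟩

variable {L : Set ℝ} {u h : ℝ → ℝ → ℝ} {V : ℝ → ℝ → ℕ → ℝ}

/-- the codimensions of two members are the same at all real levels -/
theorem UL_const (hL : ROW_LEV) (hP : FC C m v g r i j L u h V P)
    (hQ : ∀ e : ℚ, (0 : ℝ) < e → (e : ℝ) ≤ 1 → (e : ℝ) ∈ L) {D : ℕ}
    (hD : ∀ (ι : Type) [Finite ι] (S : Sp) (s : MSys S N (lin g) ι) (c : ℝ), 0 ≤ c → c < 1 →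
      volK s (rbot S) D c = volKO s (rbot S) c)
    {s : MSys S N (lin g) (Fin r)} (hs : Mem C m v g r i j P S s) {t : MSys T N (lin g) (Fin r)}
    (ht : Mem C m v g r i j P T t) {e c : ℝ} (hc : 0 < c) (hce : c ≤ e) (h1 : e ≤ 1) : UL s e c = UL t e c := by
  rcases hce.lt_or_eq with h2 | h2
  · refine ext_rat (a := c) (B := N * D) (f := fun e => UL s e c) (f' := fun e => UL t e c) (by positivity) ?_ ?_ ?_ h2 h1
    · intro x y hx hxy hy
      exact ⟨(hL S N g r s).2.1 x y c (hc.trans hx) hxy hy hc.le hx.le, UL_lip hL hD s hc.le hx hxy hy⟩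
    · intro x y hx hxy hy
      exact ⟨(hL T N g r t).2.1 x y c (hc.trans hx) hxy hy hc.le hx.le, UL_lip hL hD t hc.le hx hxy hy⟩
    · intro q hq hq1
      show UL s q c = UL t q c
      rw [hP.ul S s hs q (hQ q (hc.trans hq) hq1) (hc.trans hq) hq1 c hc.le hq.le,
        hP.ul T t ht q (hQ q (hc.trans hq) hq1) (hc.trans hq) hq1 c hc.le hq.le]
  · subst h2
    rw [UL_self hc h1, UL_self hc h1]

/-- the least entropies of two members are the same at all real levels -/
theorem HL_const (hP : FC C m v g r i j L u h V P)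
    (hQ : ∀ e : ℚ, (0 : ℝ) < e → (e : ℝ) ≤ 1 → (e : ℝ) ∈ L)
    {s : MSys S N (lin g) (Fin r)} (hs : Mem C m v g r i j P S s) {t : MSys T N (lin g) (Fin r)}
    (ht : Mem C m v g r i j P T t) {e c : ℝ} (he : 0 < e) (h1 : e ≤ 1) (hc : 0 ≤ c) (hc1 : c ≤ 1) :
    HL s e c = HL t e c := by
  refine ext_rat (a := 0) (B := N) (f := fun e => HL s e c) (f' := fun e => HL t e c) (by positivity) ?_ ?_ ?_ he h1
  · exact fun x y _ hxy _ => HL_lev s hxy
  · exact fun x y _ hxy _ => HL_lev t hxy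
  · intro q hq hq1
    show HL s q c = HL t q c
    rw [hP.hl S s hs q (hQ q hq hq1) hq hq1 c hc hc1, hP.hl T t ht q (hQ q hq hq1) hq hq1 c hc hc1]

/-- numbers on events of extensions -/
theorem num_im (hL : ROW_LEV) (hP : FC C m v g r i j L u h V P)
    (hQ : ∀ e : ℚ, (0 : ℝ) < e → (e : ℝ) ≤ 1 → (e : ℝ) ∈ L) {D : ℕ}
    (hD : ∀ (ι : Type) [Finite ι] (S : Sp) (s : MSys S N (lin g) ι) (c : ℝ), 0 ≤ c → c < 1 →
      volK s (rbot S) D c = volKO s (rbot S) c)
    {s : MSys S N (lin g) (Fin r)} (hs : Mem C m v g r i j P S s) (p : Pj T S) (A : ∀ k, (T.F k).Ω → Prop)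
    (hA : 0 < ul (T.pr A)) {e c : ℝ} (hc : 0 < c) (hce : c ≤ e) (h1 : e ≤ 1) :
    UL (s.im p A hA) e c = UL s e c ∧ HL (s.im p A hA) e c = HL s e c := by
  obtain ⟨t, ht, ht2⟩ := mem_im hP.cls hP.ety hs p A hA
  rw [← UL_giv ht, ← HL_giv ht]
  exact ⟨UL_const hL hP hQ hD ht2 hs hc hce h1, HL_const hP hQ ht2 hs (hc.trans_le hce) h1 hc.le (hce.trans h1)⟩

/-- SATURATION: if the hull changes immediately below the level `b`, there is no deficit at the level `b` -/
theorem sat_lev (hL : ROW_LEV) (hX : ROW_EXH) (hst : ∀ m, m < N → STu m) (hg : 1 ≤ g) (hN : 1 ≤ N)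
    (hP : FC C m v g r i j L u h V P)
    (hQ : ∀ e : ℚ, (0 : ℝ) < e → (e : ℝ) ≤ 1 → (e : ℝ) ∈ L) {D : ℕ}
    (hD : ∀ (ι : Type) [Finite ι] (S : Sp) (s : MSys S N (lin g) ι) (c : ℝ), 0 ≤ c → c < 1 →
      volK s (rbot S) D c = volKO s (rbot S) c)
    {s : MSys S N (lin g) (Fin r)} (hs : Mem C m v g r i j P S s) {b c : ℝ} (hc : 0 < c) (hcb : c < b) (h1 : b ≤ 1)
    (hd : HL s b c < N * b - UL s b c) : ∃ e, c ≤ e ∧ e < b ∧ UL s b c ≤ UL s e c := by
  by_contra hcon
  push Not at hcon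
  have hb : 0 < b := hc.trans hcb
  obtain ⟨D₀, hD0, hE⟩ := hX N g r hg hN hst
  have key : ∀ δ : ℝ, 0 < δ → N - UL s b c / b ≤ HL s b c / b + δ := by
    intro δ hδ
    -- the level
    obtain ⟨e, he1, he2⟩ : ∃ e, max c (b * (1 - δ)) < e ∧ e < b := exists_between (max_lt hcb (by nlinarith))
    have hce : c < e := (le_max_left _ _).trans_lt he1
    have hbe : b * (1 - δ) < e := (le_max_right _ _).trans_lt he1
    have he0 : 0 < e / b := div_pos (hc.trans hce) hb
    have he3 : e / b < 1 := (div_lt_one hb).2 he2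
    have he4 : 1 - e / b < δ := by
      rw [sub_lt_comm, lt_div_iff₀ hb, mul_comm]
      exact hbe
    set t := s.trn b hb h1 with ht
    have hlev := (hL S N g r s).2.2.2.2 b
    have l1 := (hlev (e / b) (c / b) hb h1 he0 he3.le (div_nonneg hc.le hb.le)
      ((div_le_div_iff_of_pos_right hb).2 hce.le)).1
    have l2 := (hlev 1 (c / b) hb h1 one_pos le_rfl (div_nonneg hc.le hb.le) ((div_le_one hb).2 hcb.le)).1
    have q1 : b * (e / b) = e := by field_simp
    have q2 : b * (c / b) = c := by field_simp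
    rw [q1, q2] at l1
    rw [mul_one, q2] at l2
    have h2 := hcon e hce.le he2
    rw [← l1, ← l2] at h2
    have h3 : UL t (e / b) (c / b) < UL t 1 (c / b) := lt_of_mul_lt_mul_left h2 hb.le
    obtain ⟨A, hA, x, hx, hxl⟩ := hE D₀ le_rfl _ t (e / b) (c / b) δ he0 he3 he4 (div_nonneg hc.le hb.le)
      ((div_le_div_iff_of_pos_right hb).2 hce.le) h3
    set s2 := s.im (Pool.Agent.Helper42.NS.ptu (Pj.id (S.chg S.tr b hb))) A hA with hs2
    have h4 : KAd (s2.trn b hb h1) (rbot _) D₀ (c / b) x := hx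
    have h5 : volKO (s2.trn b hb h1) (rbot _) (c / b) ≤ vol (s2.trn b hb h1).Q D₀ x := volKO_le_of h4
    obtain ⟨n1, n2⟩ := num_im hL hP hQ hD hs (Pool.Agent.Helper42.NS.ptu (Pj.id (S.chg S.tr b hb))) A hA hc hcb.le h1
    rw [UL_pos hb h1] at n1
    have h6 : (N : ℝ) - UL s b c / b = volKO (s2.trn b hb h1) (rbot _) (c / b) := by
      rw [← n1]
      field_simp
      ring
    have h7 : vol (s2.trn b hb h1).Q D₀ x - δ ≤ HL (s2.trn b hb h1) 1 (c / b) := by
      obtain ⟨l0, hl0⟩ := tlb_ne (s2.trn b hb h1) (c / b)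
      refine le_csInf ⟨_, l0, hl0, rfl⟩ ?_
      rintro w ⟨l, hl, rfl⟩
      rw [sub_le_iff_le_add]
      exact hxl l hl
    have l3 := ((hL _ N g r s2).2.2.2.2 b 1 (c / b) hb h1 one_pos le_rfl (div_nonneg hc.le hb.le)
      ((div_le_one hb).2 hcb.le)).2
    rw [mul_one, q2, n2] at l3
    have h8 : HL s b c / b = HL (s2.trn b hb h1) 1 (c / b) := by
      rw [← l3]
      field_simp
    rw [h6, h8]
    linarith
  have h2 : N - UL s b c / b ≤ HL s b c / b := le_of_forall_pos_le_add key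
  have h3 := mul_le_mul_of_nonneg_left h2 hb.le
  have e1 : b * (N - UL s b c / b) = N * b - UL s b c := by
    field_simp
  have e2 : b * (HL s b c / b) = HL s b c := by field_simp
  rw [e1, e2] at h3
  linarith

end cls

end

end Pool.Agent.Helper93.EXPO
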