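import Pool.Agent.Helper31.EC.Dig
import Pool.Agent.Helper31.EC.RobS

/-! [EXPO], part 4: a function with a typical lower bound and the same upper bound of the mean is typically constant;
cluster points of random exponents. -/

set_option autoImplicit false

namespace Pool.Agent.Helper93.EXPO

open Finset Filter Topology Pool.Agent.Helper69.RK Pool.Agent.Helper31.EC Pool.Agent.Helper31.EC.Sp

noncomputable section

variable {S : Sp} {N : ℕ}

/-- a nonnegative function of mean at most `c` which is at least `c - ε` on `good` -/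
theorem mkv {F : FSp} {f : F.Ω → ℝ} {c ε δ : ℝ} (hδ : 0 < δ) (hε : 0 < ε) (h0 : ∀ ω, F.μ ω ≠ 0 → 0 ≤ f ω)
    (hm : ∑ ω, F.μ ω * f ω ≤ c + ε) :
    δ * F.pb (fun ω => ¬ f ω ≤ c + δ) ≤ 2 * ε + |c| * F.pb (fun ω => ¬ c - ε ≤ f ω) := by
  have key : ∀ ω, F.μ ω * (c - ε) + δ * res F.μ (fun ω => ¬ f ω ≤ c + δ) ω -
      |c| * res F.μ (fun ω => ¬ c - ε ≤ f ω) ω ≤ F.μ ω * f ω := by
    intro ω
    by_cases hz : F.μ ω = 0
    · have e1 : ∀ P : F.Ω → Prop, res F.μ P ω = 0 := by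
        intro P
        by_cases hP : P ω
        · rw [res_pos _ _ _ hP, hz]
        · rw [res_neg _ _ _ hP]
      rw [e1, e1, hz]
      simp
    · have hn : 0 ≤ F.μ ω := F.nn ω
      have hf := h0 ω hz
      by_cases h1 : f ω ≤ c + δ
      · rw [res_neg F.μ (fun ω => ¬ f ω ≤ c + δ) ω (not_not.mpr h1)]
        by_cases h2 : c - ε ≤ f ω
        · rw [res_neg F.μ (fun ω => ¬ c - ε ≤ f ω) ω (not_not.mpr h2)]
          nlinarith
        · rw [res_pos F.μ (fun ω => ¬ c - ε ≤ f ω) ω h2]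
          have h3 := le_abs_self c
          nlinarith [mul_nonneg hn hf, mul_nonneg hn (sub_nonneg.mpr h3), mul_nonneg hn hε.le]
      · rw [res_pos F.μ (fun ω => ¬ f ω ≤ c + δ) ω h1]
        have h2 : c - ε ≤ f ω := by linarith
        rw [res_neg F.μ (fun ω => ¬ c - ε ≤ f ω) ω (not_not.mpr h2)]
        have h3 : c - ε + δ ≤ f ω := by linarith
        nlinarith [mul_nonneg hn (sub_nonneg.mpr h3)]
  have h1 := Finset.sum_le_sum fun ω (_ : ω ∈ (Finset.univ : Finset F.Ω)) => key ω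
  rw [Finset.sum_sub_distrib, Finset.sum_add_distrib, ← Finset.sum_mul, ← Finset.mul_sum, ← Finset.mul_sum] at h1
  have e1 : ∑ ω, F.μ ω = 1 := F.ms
  rw [e1, one_mul] at h1
  have h2 : c - ε + δ * F.pb (fun ω => ¬ f ω ≤ c + δ) - |c| * F.pb (fun ω => ¬ c - ε ≤ f ω) ≤ ∑ ω, F.μ ω * f ω := h1
  linarith

/-- a function with a typical lower bound and the same upper bound of the mean -/
theorem typ_up {f : ∀ k, (S.F k).Ω → ℝ} {c : ℝ} (h0 : ∀ᶠ k in UF, ∀ ω, (S.F k).μ ω ≠ 0 → 0 ≤ f k ω)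
    (hm : ∀ ε : ℝ, 0 < ε → ∀ᶠ k in UF, ∑ ω, (S.F k).μ ω * f k ω ≤ c + ε)
    (ht : ∀ ε : ℝ, 0 < ε → Typ fun k ω => c - ε ≤ f k ω) (δ : ℝ) (hδ : 0 < δ) : Typ fun k ω => f k ω ≤ c + δ := by
  have key : ∀ η : ℝ, 0 < η → ∀ᶠ k in UF, (S.F k).pb (fun ω => ¬ f k ω ≤ c + δ) < η := by
    intro η hη
    have hε : 0 < δ * η / 4 := by positivity
    have h1 : Tendsto (fun k => (S.F k).pb fun ω => ¬ c - δ * η / 4 ≤ f k ω) UF (𝓝 0) := ht _ hε
    have h2 : 0 < δ * η / (4 * (|c| + 1)) := by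
      have := abs_nonneg c
      positivity
    filter_upwards [h0, hm _ hε, h1.eventually (gt_mem_nhds h2)] with k a b d
    have h3 := mkv hδ hε a b
    have h4 : |c| * (S.F k).pb (fun ω => ¬ c - δ * η / 4 ≤ f k ω) ≤ δ * η / 4 := by
      have h5 : (|c| + 1) * (S.F k).pb (fun ω => ¬ c - δ * η / 4 ≤ f k ω) ≤ (|c| + 1) * (δ * η / (4 * (|c| + 1))) :=
        mul_le_mul_of_nonneg_left d.le (by positivity)
      have h6 : (|c| + 1) * (δ * η / (4 * (|c| + 1))) = δ * η / 4 := by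
        have : |c| + 1 ≠ 0 := by positivity
        field_simp
      have h7 := (S.F k).pb_nonneg fun ω => ¬ c - δ * η / 4 ≤ f k ω
      linarith
    have h5 : δ * (S.F k).pb (fun ω => ¬ f k ω ≤ c + δ) < δ * η := by
      have : 0 < δ * η := by positivity
      linarith
    exact lt_of_mul_lt_mul_left h5 hδ.le
  show Tendsto (fun k => (S.F k).pb fun ω => ¬ f k ω ≤ c + δ) UF (𝓝 0)
  rw [tendsto_order]
  refine ⟨fun a ha => Eventually.of_forall fun k => ha.trans_le ((S.F k).pb_nonneg _), fun a ha => key a ha⟩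

/-- finitely many typical events -/
theorem typ_fin {κ : Type} (s : Finset κ) (A : κ → ∀ k, (S.F k).Ω → Prop) (hA : ∀ i ∈ s, Typ (A i)) :
    Typ (fun k ω => ∀ i ∈ s, A i k ω) := by
  classical
  induction s using Finset.induction_on with
  | empty => exact Typ_true.mono (Eventually.of_forall fun k ω _ _ i hi => absurd hi (Finset.notMem_empty i))
  | insert a s ha ih =>
    have h1 := (ih fun i hi => hA i (Finset.mem_insert_of_mem hi)).and (hA a (Finset.mem_insert_self a s))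
    refine h1.mono (Eventually.of_forall fun k ω _ h i hi => ?_)
    rcases Finset.mem_insert.mp hi with h2 | h2
    · rw [h2]; exact h.2
    · exact h.1 i h2

/-- a typical event has points in the support -/
theorem typ_ex {A : ∀ k, (S.F k).Ω → Prop} (hA : Typ A) : ∀ᶠ k in UF, ∃ ω, (S.F k).μ ω ≠ 0 ∧ A k ω := by
  have h1 : Tendsto (fun k => (S.F k).pb fun ω => ¬ A k ω) UF (𝓝 0) := hA
  filter_upwards [h1.eventually (gt_mem_nhds one_pos)] with k hk
  by_contra hcon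
  push Not at hcon
  have h2 : (S.F k).pb (fun _ => True) ≤ (S.F k).pb (fun ω => ¬ A k ω) :=
    (S.F k).pb_mono fun ω h _ => hcon ω h
  have h3 : (S.F k).pb (fun _ => True) = 1 := by
    have h4 : (S.F k).pb (fun _ => True) = ∑ ω, (S.F k).μ ω := by
      show ∑ ω, res (S.F k).μ (fun _ => True) ω = _
      exact Finset.sum_congr rfl fun ω _ => res_pos _ _ _ trivial
    rw [h4]
    exact (S.F k).ms
  linarith

/-- CLUSTER POINTS of random exponents -/
theorem clus {κ : Type} {w : ∀ k, (S.F k).Ω → Fin N → ℝ}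
    (h01 : ∀ᶠ k in UF, ∀ ω, (S.F k).μ ω ≠ 0 → ∀ j, 0 ≤ w k ω j ∧ w k ω j ≤ 1) (b f : κ → ℝ)
    (h : ∀ i (δ : ℝ), 0 < δ → Typ fun k ω => |∑ j, max (b i - w k ω j) 0 - f i| ≤ δ) :
    ∃ x : Fin N → ℝ, (∀ j, 0 ≤ x j ∧ x j ≤ 1) ∧ ∀ i, ∑ j, max (b i - x j) 0 = f i := by
  set t : κ × {δ : ℝ // 0 < δ} → Set (Fin N → ℝ) := fun p => {x | |∑ j, max (b p.1 - x j) 0 - f p.1| ≤ p.2.1} with ht
  have hcl : ∀ p, IsClosed (t p) := by
    intro p
    refine isClosed_le ?_ continuous_const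
    refine Continuous.abs ?_
    refine Continuous.sub ?_ continuous_const
    exact continuous_finsetSum _ fun j _ => (continuous_const.sub (continuous_apply j)).max continuous_const
  have hcp : IsCompact (Set.pi Set.univ fun _ : Fin N => Set.Icc (0 : ℝ) 1) := isCompact_univ_pi fun _ => isCompact_Icc
  have h1 := hcp.inter_iInter_nonempty t hcl (fun u => by
    have h2 := typ_fin u (fun p k ω => |∑ j, max (b p.1 - w k ω j) 0 - f p.1| ≤ p.2.1)
      (fun p _ => h p.1 p.2.1 p.2.2)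
    obtain ⟨k, hk1, ω, hω, hk2⟩ := (h01.and (typ_ex h2)).exists
    refine ⟨w k ω, ?_, ?_⟩
    · intro j _
      exact hk1 ω hω j
    · rw [Set.mem_iInter₂]
      intro p hp
      exact hk2 p hp)
  obtain ⟨x, hx1, hx2⟩ := h1
  refine ⟨x, fun j => hx1 j (Set.mem_univ j), fun i => ?_⟩
  rw [Set.mem_iInter] at hx2
  have h3 : |∑ j, max (b i - x j) 0 - f i| ≤ 0 := le_of_forall_pos_le_add fun δ hδ => by
    rw [zero_add]
    exact hx2 (i, ⟨δ, hδ⟩)
  exact sub_eq_zero.mp (abs_eq_zero.mp (le_antisymm h3 (abs_nonneg _)))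

end

end Pool.Agent.Helper93.EXPO
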