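import Pool.Agent.Helper93.EXPO.Trn
import Pool.Agent.Helper93.EXPO.Clu
import Pool.Agent.Helper93.LVL.Lo
import Pool.Agent.Helper87.NJ.St

/-! [EXPO], part 5: at a level without a deficit the least entropies of all levels below are given by exponents. -/

set_option autoImplicit false

namespace Pool.Agent.Helper93.EXPO

open Finset Filter Topology Matrix Pool.Agent.Helper69.RK Pool.Agent.Helper31.EC Pool.Agent.Helper31.EC.Sp
open Pool.Agent.Helper40.EL Pool.Agent.Helper89.LX Pool.Agent.Helper84.MT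
open Pool.Agent.Helper49.MD Pool.Agent.Helper36.AM
open Pool.Agent.Helper3.LF (Mon)
open Pool.Agent.Helper29.MX
open Pool.Agent.Helper15.FST
open Pool.Agent.Helper87.NSL (cndR FmG FmG_of_Adf)
open Pool.Agent.Helper66.NJ (Kn1 zFD opt_zFD exists_carrier)
open Pool.Agent.Helper76.ADP (RowsF)
open Pool.Agent.Helper76.THK (e00)
open Pool.Agent.Helper87.NJ (Fuf ROW_FDG ROW_PTW)
open Pool.Agent.Helper13.FST (gW H_gW gW_UB HL_le tlb_ofZ_im row_kap)

noncomputable section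

variable {S T : Sp} {N : ℕ} {E : ℕ → ℕ} {ι : Type}

/-- a LITERAL maximal label (as in helper37's `Zex`) -/
theorem lit_kap [Finite ι] (s : MSys S N E ι) (c : ℝ) : ∃ W : Rsl S, s.IsKap c (Lab.ofZ W) := by
  obtain ⟨l, hl⟩ := s.exists_kap c
  obtain ⟨σ, -, h2, -⟩ := Pool.Agent.Helper49.KL.exists_secK (A := s.cnd c) (R := rbot S) (l := l)
    ⟨hl.1, kz_bot l, fun l' h _ => hl.2 l' h⟩ (i₀ := none) (pcd_Bd s.Q) (fun _ _ => 0) (fun _ _ => le_rfl) (by
      simp only [mul_zero, Finset.sum_const_zero]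
      exact tendsto_const_nhds)
  exact ⟨σ.Z, h2.1, fun l' h => h2.2.2 l' h (kz_bot l')⟩

/-- literal type-labels of a truncation are type-labels of the system -/
theorem tlb_of_trn {s : MSys S N E ι} {W : Rsl S} {b : ℝ} {h0 : 0 < b} {h1 : b ≤ 1} {c : ℝ}
    (h : TLb (s.trn b h0 h1) (c / b) (Lab.ofZ (S := S.chg S.tr b h0) W)) : TLb s c (Lab.ofZ W) := by
  intro i
  have h2 := Pool.Agent.Helper52.SL.nul_trn.mp (h i)
  have e1 : (fun k => ((Lab.ofZ (S := S.chg S.tr b h0) W) k).leak (((s.trn b h0 h1).lf i).win (c / b) k)) =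
      fun k => ((Lab.ofZ W) k).leak ((s.lf i).win c k) := funext fun k => leak_trn W h1 c i k
  rw [e1] at h2
  exact h2

/-- the mean of the total exponent over rows, from the entropies of the label below -/
theorem mean_up {V : ∀ k, Setoid (S.F k).Ω} {Q : S.VV N} (p : Pj T S) {W : ∀ k, Setoid (T.F k).Ω} {D : ℕ} (hD : 1 ≤ D)
    {Ex : ∀ k, (T.F k).Ω → (Fin 0 ⊕ Fin N ≃ Fin N)} {f : ∀ k, (T.F k).Ω → Fin N → MvPolynomial (Fin N) ℝ}
    {w : ∀ k, (T.F k).Ω → Fin N → ℝ} (hWV : ∀ k, W k ≤ p.pb V k) (x : RowsF W (p.vv Q) D Ex f w) {b c : ℝ}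
    (hb : 0 ≤ b) (hb1 : b ≤ 1) (hc : H (up1 (Lab.ofZ V) (Q.dg b)) ≤ c) (ε : ℝ) (hε : 0 < ε) :
    ∀ᶠ k in UF, ∑ ω, (T.F k).μ ω * ∑ j, max (b - w k ω j) 0 ≤ c + ε := by
  rw [H_gW] at hc
  have h1 := Pool.Agent.Helper93.LVL.lvl_lo (zero_add N) hD x hb hb1 (half_pos hε)
  have h2 := (ul_tendsto (gW_UB Q V b)).eventually (gt_mem_nhds (show ul (gW Q V b) < c + ε / 2 by linarith))
  filter_upwards [h1, h2] with k a b'
  have hn := (T.F k).pos
  have e1 : (T.F k).n = (S.F k).n := p.hn k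
  have h3 : (T.F k).e (Setoid.ker ((p.vv Q).cellv b k)) (W k ⊓ (T.F k).Z) ≤ gW Q V b k * (T.F k).n := by
    rw [← h_fc]
    have h4 : h (fc (Setoid.ker ((p.vv Q).cellv b k))) (fc (W k)) ≤
        h (fc (Setoid.ker ((p.vv Q).cellv b k))) (fc (p.pb V k)) :=
      h_anti (fc_le fun ω ω' _ _ _ h' => hWV k h')
    have h5 : h (fc (Setoid.ker ((p.vv Q).cellv b k))) (fc (p.pb V k)) =
        h (fc (Setoid.ker (Q.cellv b k))) (fc (V k)) := by
      have h5' := (p.fp k).h_map (fc (Setoid.ker (Q.cellv b k))) (fc (V k))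
      have e3 : Setoid.ker ((p.vv Q).cellv b k) = Setoid.comap (p.π k) (Setoid.ker (Q.cellv b k)) := by
        rw [vv_cellv]
        rfl
      rw [e3]
      exact h5'
    have h6 : gW Q V b k * (S.F k).n = h (fc (Setoid.ker (Q.cellv b k))) (fc (V k)) := by
      show h (fc (Setoid.ker (Q.cellv b k))) (fc (V k)) / (S.F k).n * (S.F k).n = _
      have := (S.F k).pos.ne'
      field_simp
    rw [e1, h6]
    exact h4.trans_eq h5
  have h7 : gW Q V b k * (T.F k).n ≤ (c + ε / 2) * (T.F k).n := mul_le_mul_of_nonneg_right b'.le hn.le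
  have h8 : ((0 : ℕ) * b + ∑ ω, (T.F k).μ ω * ∑ j, max (b - w k ω j) 0 - ε / 2) * (T.F k).n ≤
      (c + ε / 2) * (T.F k).n := a.trans (h3.trans h7)
  have h9 := le_of_mul_le_mul_right h8 hn
  rw [Nat.cast_zero, zero_mul, zero_add] at h9
  linarith

section cls

variable {C : ℕ → MCl N} {m v g r : ℕ} {i j : Fin r} {P : (KM N (Fin r)).Pd} {L : Set ℝ} {u h : ℝ → ℝ → ℝ}
  {V : ℝ → ℝ → ℕ → ℝ}

/-- least entropies on events of extensions -/
theorem HL_im (hP : FC C m v g r i j L u h V P)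
    (hQ : ∀ e : ℚ, (0 : ℝ) < e → (e : ℝ) ≤ 1 → (e : ℝ) ∈ L)
    {s : MSys S N (lin g) (Fin r)} (hs : Mem C m v g r i j P S s) (p : Pj T S) (A : ∀ k, (T.F k).Ω → Prop)
    (hA : 0 < ul (T.pr A)) {e c : ℝ} (he : 0 < e) (h1 : e ≤ 1) (hc : 0 ≤ c) (hc1 : c ≤ 1) :
    HL (s.im p A hA) e c = HL s e c := by
  obtain ⟨t, ht, ht2⟩ := mem_im hP.cls hP.ety hs p A hA
  rw [← HL_giv ht]
  exact HL_const hP hQ ht2 hs he h1 hc hc1

/-- **[LVX]** at a level `b` without a deficit the least entropies of the levels `≤ b` are given by exponents -/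
theorem lvx (hL : ROW_LEV) (hF : ROW_FDG N) (hW : ROW_PTW) (hst : ∀ m, m < N → STu m)
    (hP : FC C m v g r i j L u h V P) (hQ : ∀ e : ℚ, (0 : ℝ) < e → (e : ℝ) ≤ 1 → (e : ℝ) ∈ L) {D : ℕ} (hD1 : 1 ≤ D)
    (hD : ∀ (ι : Type) [Finite ι] (S : Sp) (s : MSys S N (lin g) ι) (c : ℝ), 0 ≤ c → c < 1 →
      volK s (rbot S) D c = volKO s (rbot S) c)
    {s : MSys S N (lin g) (Fin r)} (hs : Mem C m v g r i j P S s) {b c : ℝ} (hc : 0 < c) (hcb : c < b) (h1 : b ≤ 1)
    (hd : N * b - UL s b c ≤ HL s b c) :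
    ∃ E : Fin N → ℝ, (∀ i, E i ≤ b) ∧ ∀ e, c ≤ e → e ≤ b → HL s e c = ∑ i, max (e - E i) 0 := by
  have hb : 0 < b := hc.trans hcb
  have hc1 : c ≤ 1 := hcb.le.trans h1
  set t := s.trn b hb h1 with ht
  have hcb0 : 0 ≤ c / b := div_nonneg hc.le hb.le
  have hcb1 : c / b < 1 := (div_lt_one hb).2 hcb
  -- the labels
  obtain ⟨Z, hZ⟩ := lit_kap s c
  obtain ⟨hZt, hZe⟩ := row_kap N g r i j S s hs.1.2 c (Lab.ofZ Z) hc.le hc1 hZ
  obtain ⟨W0, hR0, hA0, hG0⟩ := exists_carrier (S := S.chg S.tr b hb) (cndR t (rbot _) (c / b)) (rbot _) (α := Unit)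
    (fun _ => Mon N D) (fun _ => gaq t.Q D)
  obtain ⟨G, hG1, hG2⟩ := hG0 ()
  set V0 : Rsl (S.chg S.tr b hb) := fun k => W0 k ⊓ Z k with hV0
  have hZA : (Lab.ofZ (S := S.chg S.tr b hb) Z).DMf (cndR t (rbot _) (c / b)) := ((tlb_iff t _ _).mpr (tlb_trn hZt)).1
  have hVA : (Lab.ofZ V0).DMf (cndR t (rbot _) (c / b)) := dmf_inf hA0 hZA
  have hop := opt_zFD (W := V0) (gaq t.Q D) hG1 hG2 (Eventually.of_forall fun k => inf_le_left)
    (Eventually.of_forall fun k => inf_le_left.trans bot_le) hVA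
  have hVt : TLb t (c / b) (Lab.ofZ V0) := (tlb_iff t _ _).mp ⟨hVA, kz_bot _⟩
  have hVs : TLb s c (Lab.ofZ (S := S) V0) := tlb_of_trn hVt
  -- the full form
  have hkn : ∀ᶠ k in UF, Kn1 (V0 k) (G k) := by
    filter_upwards [hG1] with k hk using hk.mono inf_le_left
  have hfu : vol t.Q D (fun k => zFD (V0 k) (G k)) ≤ H (up1 (Lab.ofZ V0) (t.Q.dg 1)) := by
    rw [← volK_of_opt (s := t) (R := rbot _) (c := c / b) hop, hD (Fin r) _ t (c / b) hcb0 hcb1]
    have h2 : (volKO t (rbot _) (c / b) : ℝ) = N - UL s b c / b := by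
      rw [UL_pos hb h1]
      field_simp
      ring
    have h3 : (N : ℝ) - UL s b c / b ≤ HL s b c / b := by
      have h4 := div_le_div_of_nonneg_right hd hb.le
      have e1 : (N * b - UL s b c) / b = N - UL s b c / b := by field_simp
      rwa [e1] at h4
    have h4 : HL s b c ≤ H (up1 (Lab.ofZ (S := S) V0) (s.Q.dg b)) := HL_le hVs
    have h5 := H_trn s V0 hb h1 1
    rw [mul_one] at h5
    rw [h2]
    refine (h3.trans (div_le_div_of_nonneg_right h4 hb.le)).trans_eq h5.symm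
  obtain ⟨T, p, W, D', o, w, hWV, hPL, hD', -, hrows⟩ := hF hst (S.chg S.tr b hb) V0 t.Q D G hD1
    ⟨hkn, FmG_of_Adf hop.1.1, hfu⟩
  obtain ⟨f, hf⟩ := hrows 0 N (zero_add N) fun ε hε => Typ_true.mono (Eventually.of_forall fun k ω _ _ j => j.elim0)
  -- all levels
  have key : ∀ b' : ℝ, c / b ≤ b' → b' ≤ 1 → ∀ δ : ℝ, 0 < δ → Typ (S := T) fun k ω =>
      |∑ j, max (b' - w k ω (e00 (zero_add N) (Sum.inr j))) 0 - HL s (b * b') c / b| ≤ δ := by
    intro b' hb' hb'1 δ hδ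
    have hb'0 : 0 < b' := (div_pos hc hb).trans_le hb'
    have g1 : 0 < b * b' := mul_pos hb hb'0
    have g2 : b * b' ≤ 1 := mul_le_one₀ h1 hb'0.le hb'1
    have e2 : b * (c / b) = c := by field_simp
    -- the lower bound on all events
    have hlo : ∀ (T : Sp) (p : Pj T (S.chg S.tr b hb)) (A : ∀ k, (T.F k).Ω → Prop) (hA : 0 < ul (T.pr A)),
        HL s (b * b') c / b ≤ H (up1 (Lab.ofZ (S := Sp.im p A) V0) ((t.im p A hA).Q.dg b')) := by
      intro T p A hA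
      have a1 : HL (t.im p A hA) b' (c / b) ≤ H (up1 (Lab.ofZ (S := Sp.im p A) V0) ((t.im p A hA).Q.dg b')) :=
        HL_le (tlb_ofZ_im hVt p A hA)
      have a2 := ((hL _ N g r (s.im (Pool.Agent.Helper42.NS.ptu p) A hA)).2.2.2.2 b b' (c / b) hb h1 hb'0 hb'1 hcb0
        hb').2
      rw [e2, HL_im hP hQ hs (Pool.Agent.Helper42.NS.ptu p) A hA g1 g2 hc.le hc1] at a2
      have a3 : b * HL (t.im p A hA) b' (c / b) = HL s (b * b') c := a2
      rw [← a3, mul_div_cancel_left₀ _ hb.ne']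
      exact a1
    have hlow := hW N D' g r (S.chg S.tr b hb) T t V0 p W _ f _ b' _ hD' hb'0.le hb'1 hlo hWV hPL hf
    -- the upper bound
    have hup : H (up1 (Lab.ofZ V0) (t.Q.dg b')) ≤ HL s (b * b') c / b := by
      have a1 := H_trn s V0 hb h1 b'
      refine a1.trans_le (div_le_div_of_nonneg_right ?_ hb.le)
      exact (H_ofZ_anti s.Q (fun k => inf_le_right) _).trans (hZe _ g1 g2)
    have hmean := fun ε hε => mean_up p hD' hWV hf hb'0.le hb'1 hup ε hε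
    have htyp := typ_up (f := fun k ω => ∑ j, max (b' - w k ω (e00 (zero_add N) (Sum.inr j))) 0)
      (Eventually.of_forall fun k ω _ => Finset.sum_nonneg fun j _ => le_max_right _ _) hmean hlow δ hδ
    refine (htyp.and (hlow δ hδ)).mono (Eventually.of_forall fun k ω _ h => ?_)
    rw [abs_le]
    constructor
    · linarith [h.2]
    · linarith [h.1]
  obtain ⟨x, hx1, hx2⟩ := clus (κ := {b' : ℝ // c / b ≤ b' ∧ b' ≤ 1}) hf.w01 (fun b' => b'.1)
    (fun b' => HL s (b * b'.1) c / b) fun b' δ hδ => key b'.1 b'.2.1 b'.2.2 δ hδ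
  refine ⟨fun i => b * x i, fun i => ?_, fun e he he' => ?_⟩
  · exact mul_le_of_le_one_right hb.le (hx1 i).2
  · have h2 := hx2 ⟨e / b, (div_le_div_iff_of_pos_right hb).2 he, (div_le_one hb).2 he'⟩
    have e3 : b * (e / b) = e := by field_simp
    have h3 : ∑ j, max (e / b - x j) 0 = HL s (b * (e / b)) c / b := h2
    rw [e3] at h3
    have h4 : HL s e c = b * ∑ j, max (e / b - x j) 0 := by
      rw [h3]
      field_simp
    rw [h4, Finset.mul_sum]
    refine Finset.sum_congr rfl fun j _ => ?_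
    rw [mul_max_of_nonneg _ _ hb.le, mul_zero, mul_sub, e3]

end cls

end

end Pool.Agent.Helper93.EXPO
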