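import Pool.Agent.Helper93.EXPO.Lvx
import Pool.Agent.Helper93.FST.Exr
import Pool.Agent.Helper61.FST.Exh

/-! **[EXPO]**: the codimensions of a deficient window at all levels. -/

set_option autoImplicit false

namespace Pool.Agent.Helper93.EXPO

open Finset Filter Topology Matrix Pool.Agent.Helper69.RK Pool.Agent.Helper31.EC Pool.Agent.Helper31.EC.Sp
open Pool.Agent.Helper40.EL Pool.Agent.Helper89.LX Pool.Agent.Helper84.MT
open Pool.Agent.Helper49.MD Pool.Agent.Helper36.AM
open Pool.Agent.Helper3.LF (Mon)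
open Pool.Agent.Helper29.MX
open Pool.Agent.Helper15.FST
open Pool.Agent.Helper87.NJ (ROW_FDG ROW_PTW)

noncomputable section

variable {N : ℕ}

/-- ROW [EXPO], modulo [LEV], [FDG], [PTW] -/
theorem expo (hL : ROW_LEV) (hF : ROW_FDG N) (hW : ROW_PTW) : ROW_EXPO N := by
  intro A C _ hst m v g r i j L u h V P hg hN hP hQ c hc hc1 hdf
  obtain ⟨D, hD1, hDg⟩ := Pool.Agent.Helper61.FST.degB hN hst g
  have hD : ∀ (ι : Type) [Finite ι] (S : Sp) (s : MSys S N (lin g) ι) (c : ℝ), 0 ≤ c → c < 1 →
      volK s (rbot S) D c = volKO s (rbot S) c := fun ι _ S s c h0 h1 => hDg D le_rfl ι S s c h0 h1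
  obtain ⟨S, s, hs⟩ := exists_mem hP.cls hP.ety
  have h1L : (1 : ℝ) ∈ L := by
    have h2 := hQ 1 (by norm_num) (by norm_num)
    rwa [Rat.cast_one] at h2
  have hu1 := hP.ul S s hs 1 h1L one_pos le_rfl c hc.le hc1.le
  have hh1 := hP.hl S s hs 1 h1L one_pos le_rfl c hc.le hc1.le
  have hlev := hL S N g r s
  have hD1' : (1 : ℝ) ≤ D := by exact_mod_cast hD1
  obtain ⟨E, hE1, hE2⟩ := Pool.Agent.Helper93.FST.exr (N := N) (c := c) (B := N * D) (u := fun e => UL s e c)
    (h := fun e => HL s e c) hc1 (by positivity) (fun e e' he hee he' => by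
      refine ⟨hlev.2.1 e e' c (hc.trans_le he) hee he' hc.le he, ?_⟩
      rcases he.lt_or_eq with h2 | h2
      · exact UL_lip hL hD s hc.le h2 hee he'
      · subst h2
        show UL s e' c ≤ UL s c c + N * D * (e' - c)
        rw [UL_self hc hc1.le]
        have h3 := UL_le (s := s) (c := c) (hc.trans_le hee) he'
        have h4 : (N : ℝ) * (e' - c) ≤ N * D * (e' - c) := by
          refine mul_le_mul_of_nonneg_right ?_ (by linarith)
          exact le_mul_of_one_le_right (Nat.cast_nonneg N) hD1'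
        linarith)
    (fun e e' _ hee _ => HL_lev s hee) (fun e he he1 => hlev.2.2.2.1 e c (hc.trans_le he) he1 hc.le he)
    (UL_self hc hc1.le) (HL_nonneg s c c)
    (fun b hb hb1 hd => sat_lev hL Pool.Agent.Helper61.FST.row_exh hst hg hN hP hQ hD hs hc hb hb1 hd)
    (show HL s 1 c < N - UL s 1 c by rw [hu1, hh1]; exact hdf)
    (fun b hb hb1 hd => by
      rcases hb.lt_or_eq with h2 | h2
      · exact lvx hL hF hW hst hP hQ hD1 hD hs hc h2 hb1.le hd.ge
      · subst h2
        refine ⟨fun _ => c, fun _ => le_rfl, fun e he he' => ?_⟩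
        have h3 : e = c := le_antisymm he' he
        subst h3
        have h4 : HL s e e = N * e - UL s e e := hd
        show HL s e e = _
        rw [h4, UL_self hc hc1.le]
        simp)
  refine ⟨E, hE1, fun e he hce he1 => ?_⟩
  have h2 := hE2 e hce he1
  rw [← hP.ul S s hs e he (hc.trans_le hce) he1 c hc.le hce]
  exact h2

end

end Pool.Agent.Helper93.EXPO
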