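import Pool.Agent.Helper93.FST.Lpd
import Pool.Agent.Helper3.FST.Rfc
import Pool.Agent.Helper13.FST.Kap
import Pool.Agent.Helper61.FST.Exh
import Pool.Agent.Helper84.KR.Sel

/-! [EXPO], part 1: the numbers of a member of a robust class at ALL real levels; they are Lipschitz in the level; they are
the same for all members and on all events of extensions. -/

set_option autoImplicit false

namespace Pool.Agent.Helper93.EXPO

open Finset Filter Topology Matrix Pool.Agent.Helper69.RK Pool.Agent.Helper31.EC Pool.Agent.Helper31.EC.Sp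
open Pool.Agent.Helper40.EL Pool.Agent.Helper89.LX Pool.Agent.Helper84.MT
open Pool.Agent.Helper49.MD Pool.Agent.Helper36.AM
open Pool.Agent.Helper3.LF (Mon)
open Pool.Agent.Helper29.MX
open Pool.Agent.Helper15.FST
open Pool.Agent.Helper3.FST (idM kuM)
open Pool.Agent.Helper52.GF (mx_volK_kvm bo_pt)
open Pool.Agent.Helper13.FST (HL_le HL_bdd kap_tlb tlb_of_giv)

noncomputable section

variable {S T : Sp} {N : ℕ} {E : ℕ → ℕ} {ι : Type}

/-! ### numbers are determined by the object -/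

theorem giv_ev {s t : MSys S N E ι} (h : ∀ᶠ k in UF, ob t k = ob s k) : Giv t (ob s) := by
  refine ⟨?_, fun i => ?_⟩
  · filter_upwards [h] with k hk
    exact congrArg FMs.Q hk
  · filter_upwards [h] with k hk
    exact congrArg (fun x : FMs (S.F k).Ω N ι => x.lf i) hk

theorem volKO_giv [Encodable ι] [Finite ι] {s t : MSys S N E ι} (h : ∀ᶠ k in UF, ob t k = ob s k) (c : ℝ) :
    volKO t (rbot S) c = volKO s (rbot S) c := by
  unfold volKO
  refine iInf_congr fun D => ?_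
  exact (mx_volK_kvm (m := idM N ι) (s := t) (x := ob s) (giv_ev h) bo_pt bo_pt D c).trans
    (mx_volK_kvm (m := idM N ι) (s := s) (x := ob s) (Giv_ob s) bo_pt bo_pt D c).symm

theorem volKO_trn_giv [Encodable ι] [Finite ι] {s t : MSys S N E ι} (h : ∀ᶠ k in UF, ob t k = ob s k) {e : ℝ}
    (he : 0 < e) (h1 : e ≤ 1) (c : ℝ) : volKO (t.trn e he h1) (rbot (S.chg S.tr e he)) c =
      volKO (s.trn e he h1) (rbot (S.chg S.tr e he)) c := by
  unfold volKO
  refine iInf_congr fun D => ?_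
  exact (mx_volK_kvm (m := idM N ι) (s := t.trn e he h1) (x := (kuM N ι).o e he (ob s)) (giv_ev h) bo_pt bo_pt D c).trans
    (mx_volK_kvm (m := idM N ι) (s := s.trn e he h1) (x := (kuM N ι).o e he (ob s)) (Giv_ob s) bo_pt bo_pt D c).symm

theorem UL_giv [Encodable ι] [Finite ι] {s t : MSys S N E ι} (h : ∀ᶠ k in UF, ob t k = ob s k) (e c : ℝ) :
    UL t e c = UL s e c := by
  unfold UL
  split_ifs with h1
  · rw [volKO_trn_giv h h1.1 h1.2]
  · rfl

theorem H_giv {s t : MSys S N E ι} (h : ∀ᶠ k in UF, ob t k = ob s k) (l : Lab S) (e : ℝ) :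
    H (up1 l (t.Q.dg e)) = H (up1 l (s.Q.dg e)) := by
  rw [Pool.Agent.Helper52.GF.H_pcr, Pool.Agent.Helper52.GF.H_pcr]
  refine ul_congr ?_
  filter_upwards [h] with k hk
  have h1 : t.Q.v k = s.Q.v k := congrArg FMs.Q hk
  have h2 : pcr t.Q e k = pcr s.Q e k := by
    have h3 : t.Q.cellv e k = s.Q.cellv e k := by
      unfold VV.cellv
      rw [h1]
    unfold pcr
    rw [h3]
  rw [h2]

theorem HL_giv {s t : MSys S N E ι} (h : ∀ᶠ k in UF, ob t k = ob s k) (e c : ℝ) : HL t e c = HL s e c := by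
  unfold HL
  congr 1
  ext v
  constructor
  · rintro ⟨l, hl, rfl⟩
    exact ⟨l, tlb_of_giv (h.mono fun k hk => hk.symm) hl, H_giv h l e⟩
  · rintro ⟨l, hl, rfl⟩
    exact ⟨l, tlb_of_giv h hl, (H_giv h l e).symm⟩

/-! ### one system -/

theorem pt_bot (s : MSys S N E ι) : Pt s (rbot S) := by
  refine Eventually.of_forall fun k ω ω' _ _ _ h1 => ?_
  have h2 : ω = ω' := h1
  rw [h2]

/-- every coordinate has at least the exponent `c` -/
theorem volKO_le_mul [Finite ι] (s : MSys S N E ι) {R : Rsl S} (hR : Pt s R) {c : ℝ} (h0 : 0 ≤ c) (h1 : c ≤ 1) :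
    N * c ≤ N - volKO s R c := by
  have h2 : ∀ j, j ≤ N → (j : ℝ) * c ≤ Pool.Agent.Helper84.KR.An s R j c := by
    intro j
    induction j with
    | zero =>
      intro _
      rw [Pool.Agent.Helper84.KR.An_zero]
      simp
    | succ j ih =>
      intro hj
      have h3 := Pool.Agent.Helper84.KR.An_step (s := s) (R := R) hR hj h0 h1
      have h4 := ih (Nat.le_of_succ_le hj)
      push_cast
      linarith
  have h3 := h2 N le_rfl
  rw [Pool.Agent.Helper84.KR.An_top] at h3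
  exact h3

theorem UL_pos {s : MSys S N E ι} {e : ℝ} (h0 : 0 < e) (h1 : e ≤ 1) (c : ℝ) :
    UL s e c = e * (N - volKO (s.trn e h0 h1) (rbot (S.chg S.tr e h0)) (c / e)) := dif_pos ⟨h0, h1⟩

theorem UL_ge [Finite ι] {s : MSys S N E ι} {e c : ℝ} (h0 : 0 < e) (h1 : e ≤ 1) (hc : 0 ≤ c) (hce : c ≤ e) :
    N * c ≤ UL s e c := by
  rw [UL_pos h0 h1]
  have h2 := volKO_le_mul (s.trn e h0 h1) (R := rbot (S.chg S.tr e h0)) (pt_bot _) (c := c / e) (div_nonneg hc h0.le)
    ((div_le_one h0).2 hce)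
  have h3 := mul_le_mul_of_nonneg_left h2 h0.le
  have e1 : e * (N * (c / e)) = N * c := by
    field_simp
  rwa [e1] at h3

theorem UL_le {s : MSys S N E ι} {e c : ℝ} (h0 : 0 < e) (h1 : e ≤ 1) : UL s e c ≤ N * e := by
  rw [UL_pos h0 h1]
  have h2 := volKO_nonneg (s.trn e h0 h1) (rbot (S.chg S.tr e h0)) (c / e)
  have h3 := mul_nonneg h0.le h2
  linarith

theorem UL_self [Finite ι] {s : MSys S N E ι} {c : ℝ} (h0 : 0 < c) (h1 : c ≤ 1) : UL s c c = N * c :=
  le_antisymm (UL_le h0 h1) (UL_ge h0 h1 h0.le le_rfl)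

/-- the codimension is Lipschitz in the level -/
theorem UL_lip (hL : ROW_LEV) {g r D : ℕ}
    (hD : ∀ (ι : Type) [Finite ι] (S : Sp) (s : MSys S N (lin g) ι) (c : ℝ), 0 ≤ c → c < 1 →
      volK s (rbot S) D c = volKO s (rbot S) c)
    (s : MSys S N (lin g) (Fin r)) {x y c : ℝ} (hc : 0 ≤ c) (hcx : c < x) (hxy : x ≤ y) (hy : y ≤ 1) :
    UL s y c ≤ UL s x c + N * D * (y - x) := by
  have hx : 0 < x := hc.trans_lt hcx
  have hy0 : 0 < y := hx.trans_le hxy
  have he : 0 < x / y := div_pos hx hy0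
  have h1 : x / y ≤ 1 := (div_le_one hy0).2 hxy
  set t := s.trn y hy0 hy with ht
  have h2 := Pool.Agent.Helper93.FST.volK_lip t he h1 (rbot _) D (c / x)
  have e1 : x / y * (c / x) = c / y := by
    field_simp
  rw [e1] at h2
  have h3 := hD (Fin r) _ t (c / y) (div_nonneg hc hy0.le) ((div_lt_one hy0).2 (hcx.trans_le hxy))
  have h4 := hD (Fin r) _ (t.trn (x / y) he h1) (c / x) (div_nonneg hc hx.le) ((div_lt_one hx).2 hcx)
  have h5 : (N : ℝ) - volKO t (rbot _) (c / y) ≤ x / y * (N - volKO (t.trn (x / y) he h1) (rbot _) (c / x)) +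
      N * D * (1 - x / y) := by
    rw [← h3, ← h4]
    exact h2
  have h6 : UL t (x / y) (c / y) = x / y * (N - volKO (t.trn (x / y) he h1) (rbot _) (c / x)) := by
    rw [UL_pos he h1]
    have e2 : c / y / (x / y) = c / x := by
      field_simp
    rw [e2]
  rw [← h6] at h5
  have h7 := ((hL S N g r s).2.2.2.2 y (x / y) (c / y) hy0 hy he h1 (div_nonneg hc hy0.le) (by
    rw [div_le_div_iff_of_pos_right hy0]
    exact hcx.le)).1
  have e3 : y * (x / y) = x := by
    field_simp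
  have e4 : y * (c / y) = c := by
    field_simp
  rw [e3, e4] at h7
  rw [← h7, UL_pos hy0 hy]
  have h8 := mul_le_mul_of_nonneg_left h5 hy0.le
  refine h8.trans (le_of_eq ?_)
  rw [mul_add]
  congr 1
  field_simp

theorem tlb_ne [Countable ι] (s : MSys S N E ι) (c : ℝ) : ∃ l : Lab S, TLb s c l := by
  obtain ⟨l, hl⟩ := s.exists_kap c
  exact ⟨l, kap_tlb hl⟩

theorem HL_nonneg [Countable ι] (s : MSys S N E ι) (e c : ℝ) : 0 ≤ HL s e c := by
  obtain ⟨l, hl⟩ := tlb_ne s c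
  refine le_csInf ⟨_, l, hl, rfl⟩ ?_
  rintro v ⟨l, _, rfl⟩
  exact H_nonneg _

/-- the least entropy is monotone and Lipschitz in the level -/
theorem HL_lev [Countable ι] (s : MSys S N E ι) {x y c : ℝ} (hxy : x ≤ y) :
    HL s x c ≤ HL s y c ∧ HL s y c ≤ HL s x c + N * (y - x) := by
  obtain ⟨l0, hl0⟩ := tlb_ne s c
  have hm : s.Q.dg x ≤ s.Q.dg y := s.Q.dg_mono hxy
  constructor
  · refine le_csInf ⟨_, l0, hl0, rfl⟩ ?_
    rintro v ⟨l, hl, rfl⟩
    exact (HL_le hl).trans (H_mono (up1_mono _ hm))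
  · rw [← sub_le_iff_le_add]
    refine le_csInf ⟨_, l0, hl0, rfl⟩ ?_
    rintro v ⟨l, hl, rfl⟩
    rw [sub_le_iff_le_add]
    refine (HL_le hl).trans ?_
    have h1 := H_chain (up1 l (s.Q.dg x)) (up1 l (s.Q.dg y))
    rw [sup_eq_right.mpr (up1_mono l hm)] at h1
    have h2 := h_up1_le l (s.Q.dg y) (s.Q.dg x)
    have h3 := s.Q.h_dg_dg hxy
    linarith

end

end Pool.Agent.Helper93.EXPO
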