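import Pool.Agent.Helper3.NJ.Fulb
import Pool.Agent.Helper93.EXPO.Cls

/-! [EXPO], part 3: literal type-labels and their entropies in truncations; joins of literal type-labels. -/

set_option autoImplicit false

namespace Pool.Agent.Helper93.EXPO

open Finset Filter Topology Matrix Pool.Agent.Helper69.RK Pool.Agent.Helper31.EC Pool.Agent.Helper31.EC.Sp
open Pool.Agent.Helper40.EL Pool.Agent.Helper89.LX Pool.Agent.Helper84.MT
open Pool.Agent.Helper49.MD Pool.Agent.Helper36.AM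
open Pool.Agent.Helper3.LF (Mon)
open Pool.Agent.Helper29.MX
open Pool.Agent.Helper15.FST
open Pool.Agent.Helper52.SL (nul_trn cellv_chg)
open Pool.Agent.Helper13.FST (gW H_gW gW_UB)

noncomputable section

variable {S T : Sp} {N : ℕ} {E : ℕ → ℕ} {ι : Type}

/-- leaks of a literal label at the windows of a truncation -/
theorem leak_trn {s : MSys S N E ι} (W : Rsl S) {b : ℝ} {h0 : 0 < b} (h1 : b ≤ 1) (c : ℝ) (i : ι) (k : ℕ) :
    ((Lab.ofZ (S := S.chg S.tr b h0) W) k).leak (((s.trn b h0 h1).lf i).win (c / b) k) =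
      ((Lab.ofZ W) k).leak ((s.lf i).win c k) := by
  refine (Lab.ofZ_leak (S := S.chg S.tr b h0) W (((s.trn b h0 h1).lf i).win (c / b)) k).trans ?_
  refine Eq.trans ?_ (Lab.ofZ_leak W ((s.lf i).win c) k).symm
  have e1 : ((s.lf i).Y.chg S.tr b h0).cellv (c / b) k = (s.lf i).Y.cellv c k :=
    (cellv_chg (s.lf i).Y b h0 (c / b) k).trans (by
      congr 1
      field_simp)
  have e2 := h_chg_top b h0 (F := S.F k) (W k) ((s.lf i).La k ⊓ Setoid.ker ((s.lf i).Y.cellv c k))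
  refine Eq.trans ?_ e2
  exact congrArg (fun f => h (fc (F := (S.F k).chg ⊤ b h0) (W k))
    (fc (F := (S.F k).chg ⊤ b h0) ((s.lf i).La k ⊓ Setoid.ker f))) e1

/-- literal type-labels of the truncations -/
theorem tlb_trn {s : MSys S N E ι} {W : Rsl S} {b : ℝ} {h0 : 0 < b} {h1 : b ≤ 1} {c : ℝ}
    (h : TLb s c (Lab.ofZ W)) : TLb (s.trn b h0 h1) (c / b) (Lab.ofZ (S := S.chg S.tr b h0) W) := by
  intro i
  apply nul_trn.mpr
  have e1 : (fun k => ((Lab.ofZ (S := S.chg S.tr b h0) W) k).leak (((s.trn b h0 h1).lf i).win (c / b) k)) =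
      fun k => ((Lab.ofZ W) k).leak ((s.lf i).win c k) := funext fun k => leak_trn W h1 c i k
  rw [e1]
  exact h i

/-- the entropies over a literal label in the truncations -/
theorem gW_trn (s : MSys S N E ι) (W : Rsl S) {b : ℝ} (h0 : 0 < b) (h1 : b ≤ 1) (e : ℝ) (k : ℕ) :
    gW (S := S.chg S.tr b h0) (s.trn b h0 h1).Q W e k = gW s.Q W (b * e) k / b := by
  have e1 : (s.trn b h0 h1).Q.cellv e k = s.Q.cellv (b * e) k := cellv_chg s.Q b h0 e k
  have e2 := h_chg_top b h0 (F := S.F k) (Setoid.ker (s.Q.cellv (b * e) k)) (W k)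
  have e3 : gW (S := S.chg S.tr b h0) (s.trn b h0 h1).Q W e k =
      h (fc (F := (S.F k).chg ⊤ b h0) (Setoid.ker ((s.trn b h0 h1).Q.cellv e k)))
        (fc (F := (S.F k).chg ⊤ b h0) (W k)) / (b * (S.F k).n) := rfl
  rw [e3, e1]
  refine (congrArg (fun x => x / (b * (S.F k).n)) e2).trans ?_
  show _ = h (fc (F := S.F k) (Setoid.ker (s.Q.cellv (b * e) k))) (fc (W k)) / (S.F k).n / b
  rw [div_div, mul_comm (S.F k).n b]

theorem H_trn (s : MSys S N E ι) (W : Rsl S) {b : ℝ} (h0 : 0 < b) (h1 : b ≤ 1) (e : ℝ) :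
    H (up1 (Lab.ofZ (S := S.chg S.tr b h0) W) ((s.trn b h0 h1).Q.dg e)) =
      H (up1 (Lab.ofZ W) (s.Q.dg (b * e))) / b := by
  rw [H_gW, H_gW]
  have t1 := (ul_tendsto (gW_UB s.Q W (b * e))).div_const b
  exact ul_eq (t1.congr fun k => (gW_trn s W h0 h1 e k).symm)

/-- joins of literal labels -/
theorem dmf_inf {κ : Type} {A : κ → Part S} {W Z : Rsl S} (hW : (Lab.ofZ W).DMf A) (hZ : (Lab.ofZ Z).DMf A) :
    (Lab.ofZ fun k => W k ⊓ Z k).DMf A := by
  refine (Lab.ofZ_DMf _).mpr fun i => ?_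
  have e : (fun k => (fc (W k ⊓ Z k) : FL (S.F k))) = fun k => fc (W k) ⊔ fc (Z k) := funext fun k => fc_inf _ _
  rw [e]
  exact PLe.sup_le ((Lab.ofZ_DMf W).mp hW i) ((Lab.ofZ_DMf Z).mp hZ i)

/-- finer literal labels have smaller entropies -/
theorem H_ofZ_anti (Q : S.VV N) {W Z : Rsl S} (h : ∀ k, W k ≤ Z k) (e : ℝ) :
    H (up1 (Lab.ofZ W) (Q.dg e)) ≤ H (up1 (Lab.ofZ Z) (Q.dg e)) := by
  rw [H_gW, H_gW]
  refine ul_mono (gW_UB Q W e) (gW_UB Q Z e) (Eventually.of_forall fun k => ?_)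
  refine div_le_div_of_nonneg_right ?_ (S.F k).pos.le
  exact h_anti (fc_le fun ω ω' _ _ _ h' => h k h')

end

end Pool.Agent.Helper93.EXPO
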